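import Mathlib
import Pool.Agent.Helper5.UV.Tri
import Pool.Agent.Helper53.TC5.Model

/-!
# Four random triangles: how often do their edges meet a fixed set of cells in all three sides
-/

set_option autoImplicit false

namespace Pool.Agent.Helper53.DG

open Finset Pool.Agent.Helper53.TC5

section abs

theorem card_pi_le {τ : Type*} (S : Fin 4 → Finset τ) (w : Fin 4 → ℝ) (h : ∀ q, ((S q).card : ℝ) ≤ w q) :
    ((Fintype.piFinset S).card : ℝ) ≤ ∏ q, w q := by
  rw [Fintype.card_piFinset]
  push_cast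
  exact Finset.prod_le_prod (fun q _ => by positivity) (fun q _ => h q)

variable {τ : Type*} [Fintype τ] [DecidableEq τ]

theorem prod_ite_one (p : Fin 4) (x : ℝ) : ∏ q : Fin 4, (if q = p then x else 1) = x := by
  rw [Finset.prod_ite_eq']
  simp

theorem one_le (M a : ℝ) (hM : 0 < M) (hτ : (Fintype.card τ : ℝ) = M ^ 3)
    (E : Fin 4 → Finset τ) (hE : ∀ q, ((E q).card : ℝ) ≤ M * a) (p : Fin 4) :
    ((univ.filter (fun T : Fin 4 → τ => T p ∈ E p)).card : ℝ) ≤ M ^ 9 * (M * a) := by
  have h1 : (univ.filter (fun T : Fin 4 → τ => T p ∈ E p)) ⊆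
      Fintype.piFinset (fun q => if q = p then E q else univ) := by
    intro T hT
    rw [mem_filter] at hT
    rw [Fintype.mem_piFinset]
    intro q
    by_cases hq : q = p
    · rw [if_pos hq, hq]
      exact hT.2
    · rw [if_neg hq]
      exact mem_univ _
  have h2 := card_pi_le (fun q => if q = p then E q else (univ : Finset τ))
    (fun q => M ^ 3 * (if q = p then a / M ^ 2 else 1)) (by
      intro q
      by_cases hq : q = p
      · simp only [if_pos hq]
        refine (hE q).trans (le_of_eq ?_)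
        field_simp
      · simp only [if_neg hq]
        rw [card_univ, hτ, mul_one])
  rw [Finset.prod_mul_distrib, prod_ite_one] at h2
  simp only [Finset.prod_const, Finset.card_univ, Fintype.card_fin] at h2
  have h3 : ((univ.filter (fun T : Fin 4 → τ => T p ∈ E p)).card : ℝ) ≤
      ((Fintype.piFinset (fun q => if q = p then E q else univ)).card : ℝ) := by
    exact_mod_cast card_le_card h1
  refine h3.trans (h2.trans (le_of_eq ?_))
  field_simp

theorem two_le (M a b : ℝ) (hM : 1 ≤ M) (ha : 0 ≤ a) (hb : 0 ≤ b)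
    (hτ : (Fintype.card τ : ℝ) = M ^ 3) (E F : Fin 4 → Finset τ)
    (hE : ∀ q, ((E q).card : ℝ) ≤ M * a) (hF : ∀ q, ((F q).card : ℝ) ≤ M * b)
    (hEF : ∀ q, ((E q ∩ F q).card : ℝ) ≤ a * b) (p r : Fin 4) :
    ((univ.filter (fun T : Fin 4 → τ => T p ∈ E p ∧ T r ∈ F r)).card : ℝ) ≤
      M ^ 9 * (a * b) := by
  have hM0 : 0 < M := by linarith
  have h1 : (univ.filter (fun T : Fin 4 → τ => T p ∈ E p ∧ T r ∈ F r)) ⊆
      Fintype.piFinset (fun q => (if q = p then E q else univ) ∩ (if q = r then F q else univ)) := by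
    intro T hT
    rw [mem_filter] at hT
    rw [Fintype.mem_piFinset]
    intro q
    rw [mem_inter]
    constructor
    · by_cases hq : q = p
      · rw [if_pos hq, hq]
        exact hT.2.1
      · rw [if_neg hq]
        exact mem_univ _
    · by_cases hq : q = r
      · rw [if_pos hq, hq]
        exact hT.2.2
      · rw [if_neg hq]
        exact mem_univ _
  have h3 : ((univ.filter (fun T : Fin 4 → τ => T p ∈ E p ∧ T r ∈ F r)).card : ℝ) ≤
      ((Fintype.piFinset (fun q => (if q = p then E q else univ) ∩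
        (if q = r then F q else univ))).card : ℝ) := by
    exact_mod_cast card_le_card h1
  refine h3.trans ?_
  by_cases hpr : p = r
  · subst hpr
    have h2 := card_pi_le
      (fun q => (if q = p then E q else (univ : Finset τ)) ∩ (if q = p then F q else univ))
      (fun q => M ^ 3 * (if q = p then a * b / M ^ 3 else 1)) (by
        intro q
        by_cases hq : q = p
        · simp only [if_pos hq]
          refine (hEF q).trans (le_of_eq ?_)
          field_simp
        · simp only [if_neg hq]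
          rw [inter_self, card_univ, hτ, mul_one])
    rw [Finset.prod_mul_distrib, prod_ite_one] at h2
    simp only [Finset.prod_const, Finset.card_univ, Fintype.card_fin] at h2
    refine h2.trans (le_of_eq ?_)
    field_simp
  · have h2 := card_pi_le
      (fun q => (if q = p then E q else (univ : Finset τ)) ∩ (if q = r then F q else univ))
      (fun q => M ^ 3 * ((if q = p then a / M ^ 2 else 1) * (if q = r then b / M ^ 2 else 1))) (by
        intro q
        by_cases hq : q = p
        · have hq' : ¬ q = r := fun h => hpr (hq.symm.trans h)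
          simp only [if_pos hq, if_neg hq']
          rw [inter_univ, mul_one]
          refine (hE q).trans (le_of_eq ?_)
          field_simp
        · by_cases hq' : q = r
          · simp only [if_neg hq, if_pos hq']
            rw [univ_inter, one_mul]
            refine (hF q).trans (le_of_eq ?_)
            field_simp
          · simp only [if_neg hq, if_neg hq']
            rw [inter_self, card_univ, hτ, mul_one, mul_one])
    rw [Finset.prod_mul_distrib, Finset.prod_mul_distrib, prod_ite_one, prod_ite_one] at h2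
    simp only [Finset.prod_const, Finset.card_univ, Fintype.card_fin] at h2
    refine h2.trans ?_
    have h4 : (M ^ 3) ^ 4 * (a / M ^ 2 * (b / M ^ 2)) = M ^ 8 * (a * b) := by
      field_simp
    rw [h4]
    refine mul_le_mul_of_nonneg_right ?_ (mul_nonneg ha hb)
    exact pow_le_pow_right₀ hM (by norm_num)

theorem sqrt_bound {x u v : ℝ} (h1 : x ≤ u) (h2 : x ≤ v) (h0 : 0 ≤ x) : x ≤ Real.sqrt (u * v) := by
  refine Real.le_sqrt_of_sq_le ?_
  nlinarith

theorem three_le (M a b c : ℝ) (hM : 1 ≤ M) (ha : 0 ≤ a) (hb : 0 ≤ b) (hc : 0 ≤ c)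
    (hτ : (Fintype.card τ : ℝ) = M ^ 3) (E F G : Fin 4 → Finset τ)
    (hE : ∀ q, ((E q).card : ℝ) ≤ M * a) (hF : ∀ q, ((F q).card : ℝ) ≤ M * b)
    (hG : ∀ q, ((G q).card : ℝ) ≤ M * c)
    (hEFG : ∀ q, (((E q ∩ F q) ∩ G q).card : ℝ) ≤ Real.sqrt (a * b * c)) (p r s : Fin 4) :
    ((univ.filter (fun T : Fin 4 → τ => T p ∈ E p ∧ T r ∈ F r ∧ T s ∈ G s)).card : ℝ) ≤
      M ^ 9 * Real.sqrt (a * b * c) := by
  have hM0 : 0 < M := by linarith
  have hcard : ∀ S : Finset τ, (S.card : ℝ) ≤ M ^ 3 := by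
    intro S
    rw [← hτ]
    exact_mod_cast card_le_univ S
  have hsabc : Real.sqrt (a * b * c) = Real.sqrt a * Real.sqrt b * Real.sqrt c := by
    rw [Real.sqrt_mul (mul_nonneg ha hb), Real.sqrt_mul ha]
  have hsM : ∀ t : ℝ, 0 ≤ t → Real.sqrt (M ^ 2 * t) = M * Real.sqrt t := by
    intro t _
    rw [Real.sqrt_mul (by positivity), Real.sqrt_sq hM0.le]
  -- one set
  have one : ∀ (S : Finset τ) (t : ℝ), 0 ≤ t → (S.card : ℝ) ≤ M * t →
      (S.card : ℝ) ≤ M ^ 3 * (Real.sqrt t / M) := by
    intro S t ht hS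
    have h1 := sqrt_bound hS (hcard S) (Nat.cast_nonneg _)
    have h2 : M * t * M ^ 3 = (M ^ 2) ^ 2 * t := by ring
    rw [h2, Real.sqrt_mul (by positivity), Real.sqrt_sq (by positivity)] at h1
    refine h1.trans (le_of_eq ?_)
    field_simp
  -- two sets
  have two : ∀ (S S' : Finset τ) (t t' : ℝ), 0 ≤ t → 0 ≤ t' → (S.card : ℝ) ≤ M * t →
      (S'.card : ℝ) ≤ M * t' →
      ((S ∩ S').card : ℝ) ≤ M ^ 3 * ((Real.sqrt t / M) * (Real.sqrt t' / M)) := by
    intro S S' t t' ht ht' hS hS'
    have h1 : ((S ∩ S').card : ℝ) ≤ M * t :=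
      le_trans (by exact_mod_cast card_le_card inter_subset_left) hS
    have h2 : ((S ∩ S').card : ℝ) ≤ M * t' :=
      le_trans (by exact_mod_cast card_le_card inter_subset_right) hS'
    have h3 := sqrt_bound h1 h2 (Nat.cast_nonneg _)
    have h4 : M * t * (M * t') = M ^ 2 * (t * t') := by ring
    rw [h4, hsM _ (mul_nonneg ht ht'), Real.sqrt_mul ht] at h3
    refine h3.trans (le_of_eq ?_)
    field_simp
  have h1 : (univ.filter (fun T : Fin 4 → τ => T p ∈ E p ∧ T r ∈ F r ∧ T s ∈ G s)) ⊆
      Fintype.piFinset (fun q => ((if q = p then E q else univ) ∩ (if q = r then F q else univ)) ∩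
        (if q = s then G q else univ)) := by
    intro T hT
    rw [mem_filter] at hT
    rw [Fintype.mem_piFinset]
    intro q
    rw [mem_inter, mem_inter]
    refine ⟨⟨?_, ?_⟩, ?_⟩
    · by_cases hq : q = p
      · rw [if_pos hq, hq]
        exact hT.2.1
      · rw [if_neg hq]
        exact mem_univ _
    · by_cases hq : q = r
      · rw [if_pos hq, hq]
        exact hT.2.2.1
      · rw [if_neg hq]
        exact mem_univ _
    · by_cases hq : q = s
      · rw [if_pos hq, hq]
        exact hT.2.2.2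
      · rw [if_neg hq]
        exact mem_univ _
  have h3 : ((univ.filter (fun T : Fin 4 → τ => T p ∈ E p ∧ T r ∈ F r ∧ T s ∈ G s)).card : ℝ) ≤
      ((Fintype.piFinset (fun q => ((if q = p then E q else univ) ∩
        (if q = r then F q else univ)) ∩ (if q = s then G q else univ))).card : ℝ) := by
    exact_mod_cast card_le_card h1
  refine h3.trans ?_
  have h2 := card_pi_le
    (fun q => ((if q = p then E q else (univ : Finset τ)) ∩ (if q = r then F q else univ)) ∩
      (if q = s then G q else univ))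
    (fun q => M ^ 3 * (((if q = p then Real.sqrt a / M else 1) *
      (if q = r then Real.sqrt b / M else 1)) * (if q = s then Real.sqrt c / M else 1))) (by
      intro q
      by_cases hq1 : q = p
      · by_cases hq2 : q = r
        · by_cases hq3 : q = s
          · simp only [if_pos hq1, if_pos hq2, if_pos hq3]
            refine (hEFG q).trans (le_of_eq ?_)
            rw [hsabc]
            field_simp
          · simp only [if_pos hq1, if_pos hq2, if_neg hq3]
            rw [inter_univ, mul_one]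
            exact two _ _ _ _ ha hb (hE q) (hF q)
        · by_cases hq3 : q = s
          · simp only [if_pos hq1, if_neg hq2, if_pos hq3]
            rw [inter_univ, mul_one]
            exact two _ _ _ _ ha hc (hE q) (hG q)
          · simp only [if_pos hq1, if_neg hq2, if_neg hq3]
            rw [inter_univ, inter_univ, mul_one, mul_one]
            exact one _ _ ha (hE q)
      · by_cases hq2 : q = r
        · by_cases hq3 : q = s
          · simp only [if_neg hq1, if_pos hq2, if_pos hq3]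
            rw [univ_inter, one_mul]
            exact two _ _ _ _ hb hc (hF q) (hG q)
          · simp only [if_neg hq1, if_pos hq2, if_neg hq3]
            rw [univ_inter, inter_univ, one_mul, mul_one]
            exact one _ _ hb (hF q)
        · by_cases hq3 : q = s
          · simp only [if_neg hq1, if_neg hq2, if_pos hq3]
            rw [univ_inter, univ_inter, one_mul, one_mul]
            exact one _ _ hc (hG q)
          · simp only [if_neg hq1, if_neg hq2, if_neg hq3]
            rw [univ_inter, univ_inter, card_univ, hτ, mul_one, mul_one, mul_one])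
  rw [Finset.prod_mul_distrib, Finset.prod_mul_distrib, Finset.prod_mul_distrib, prod_ite_one,
    prod_ite_one, prod_ite_one] at h2
  simp only [Finset.prod_const, Finset.card_univ, Fintype.card_fin] at h2
  refine h2.trans (le_of_eq ?_)
  rw [hsabc]
  field_simp

end abs

section conc

variable {m : ℕ}

/-- The triangles `(x, y, z)` with `x y` in `A`. -/
def E1 (A : Finset (Fin m × Fin m)) : Finset (Fin m × Fin m × Fin m) :=
  univ.filter (fun t => (t.1, t.2.1) ∈ A)

/-- The triangles `(x, y, z)` with `y z` in `B`. -/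
def E2 (B : Finset (Fin m × Fin m)) : Finset (Fin m × Fin m × Fin m) :=
  univ.filter (fun t => (t.2.1, t.2.2) ∈ B)

/-- The triangles `(x, y, z)` with `x z` in `C`. -/
def E3 (C : Finset (Fin m × Fin m)) : Finset (Fin m × Fin m × Fin m) :=
  univ.filter (fun t => (t.1, t.2.2) ∈ C)

theorem card_E1 (A : Finset (Fin m × Fin m)) : (E1 A).card ≤ m * A.card := by
  have h : (E1 A).card ≤ (A ×ˢ (univ : Finset (Fin m))).card := by
    refine card_le_card_of_injOn (fun t => ((t.1, t.2.1), t.2.2)) ?_ ?_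
    · intro t ht
      simp only [E1, coe_filter, mem_univ, true_and, Set.mem_ofPred_eq] at ht
      simp only [coe_product, Set.mem_prod, mem_coe]
      exact ⟨ht, mem_univ _⟩
    · rintro ⟨x, y, z⟩ _ ⟨x', y', z'⟩ _ h
      simp only [Prod.mk.injEq] at h
      obtain ⟨⟨rfl, rfl⟩, rfl⟩ := h
      rfl
  rw [card_product, card_univ, Fintype.card_fin, mul_comm] at h
  exact h

theorem card_E2 (B : Finset (Fin m × Fin m)) : (E2 B).card ≤ m * B.card := by
  have h : (E2 B).card ≤ (B ×ˢ (univ : Finset (Fin m))).card := by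
    refine card_le_card_of_injOn (fun t => ((t.2.1, t.2.2), t.1)) ?_ ?_
    · intro t ht
      simp only [E2, coe_filter, mem_univ, true_and, Set.mem_ofPred_eq] at ht
      simp only [coe_product, Set.mem_prod, mem_coe]
      exact ⟨ht, mem_univ _⟩
    · rintro ⟨x, y, z⟩ _ ⟨x', y', z'⟩ _ h
      simp only [Prod.mk.injEq] at h
      obtain ⟨⟨rfl, rfl⟩, rfl⟩ := h
      rfl
  rw [card_product, card_univ, Fintype.card_fin, mul_comm] at h
  exact h

theorem card_E3 (C : Finset (Fin m × Fin m)) : (E3 C).card ≤ m * C.card := by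
  have h : (E3 C).card ≤ (C ×ˢ (univ : Finset (Fin m))).card := by
    refine card_le_card_of_injOn (fun t => ((t.1, t.2.2), t.2.1)) ?_ ?_
    · intro t ht
      simp only [E3, coe_filter, mem_univ, true_and, Set.mem_ofPred_eq] at ht
      simp only [coe_product, Set.mem_prod, mem_coe]
      exact ⟨ht, mem_univ _⟩
    · rintro ⟨x, y, z⟩ _ ⟨x', y', z'⟩ _ h
      simp only [Prod.mk.injEq] at h
      obtain ⟨⟨rfl, rfl⟩, rfl⟩ := h
      rfl
  rw [card_product, card_univ, Fintype.card_fin, mul_comm] at h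
  exact h

theorem card_E12 (A B : Finset (Fin m × Fin m)) : (E1 A ∩ E2 B).card ≤ A.card * B.card := by
  rw [← card_product]
  refine card_le_card_of_injOn (fun t => ((t.1, t.2.1), (t.2.1, t.2.2))) ?_ ?_
  · intro t ht
    simp only [E1, E2, coe_inter, coe_filter, mem_univ, true_and, Set.mem_inter_iff,
      Set.mem_ofPred_eq] at ht
    simp only [coe_product, Set.mem_prod, mem_coe]
    exact ht
  · rintro ⟨x, y, z⟩ _ ⟨x', y', z'⟩ _ h
    simp only [Prod.mk.injEq] at h
    obtain ⟨⟨rfl, rfl⟩, _, rfl⟩ := h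
    rfl

theorem card_E13 (A C : Finset (Fin m × Fin m)) : (E1 A ∩ E3 C).card ≤ A.card * C.card := by
  rw [← card_product]
  refine card_le_card_of_injOn (fun t => ((t.1, t.2.1), (t.1, t.2.2))) ?_ ?_
  · intro t ht
    simp only [E1, E3, coe_inter, coe_filter, mem_univ, true_and, Set.mem_inter_iff,
      Set.mem_ofPred_eq] at ht
    simp only [coe_product, Set.mem_prod, mem_coe]
    exact ht
  · rintro ⟨x, y, z⟩ _ ⟨x', y', z'⟩ _ h
    simp only [Prod.mk.injEq] at h
    obtain ⟨⟨rfl, rfl⟩, _, rfl⟩ := h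
    rfl

theorem card_E23 (B C : Finset (Fin m × Fin m)) : (E2 B ∩ E3 C).card ≤ B.card * C.card := by
  rw [← card_product]
  refine card_le_card_of_injOn (fun t => ((t.2.1, t.2.2), (t.1, t.2.2))) ?_ ?_
  · intro t ht
    simp only [E2, E3, coe_inter, coe_filter, mem_univ, true_and, Set.mem_inter_iff,
      Set.mem_ofPred_eq] at ht
    simp only [coe_product, Set.mem_prod, mem_coe]
    exact ht
  · rintro ⟨x, y, z⟩ _ ⟨x', y', z'⟩ _ h
    simp only [Prod.mk.injEq] at h
    obtain ⟨⟨rfl, rfl⟩, rfl, _⟩ := h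
    rfl

theorem card_E123 (A B C : Finset (Fin m × Fin m)) :
    (((E1 A ∩ E2 B) ∩ E3 C).card : ℝ) ≤ Real.sqrt ((A.card : ℝ) * B.card * C.card) := by
  have h1 : (E1 A ∩ E2 B) ∩ E3 C ⊆ Helper5.UV.inTri A B (C.image Prod.swap) := by
    intro t ht
    simp only [E1, E2, E3, mem_inter, mem_filter, mem_univ, true_and] at ht
    simp only [Helper5.UV.inTri, mem_filter, mem_univ, true_and, mem_image]
    exact ⟨ht.1.1, ht.1.2, (t.1, t.2.2), ht.2, rfl⟩
  have h2 := Helper5.UV.card_inTri_sq A B (C.image Prod.swap)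
  have h3 : (C.image Prod.swap).card ≤ C.card := card_image_le
  have h4 : ((E1 A ∩ E2 B) ∩ E3 C).card ^ 2 ≤ A.card * (B.card * C.card) :=
    (Nat.pow_le_pow_left (card_le_card h1) 2).trans
      (h2.trans (Nat.mul_le_mul_left _ (Nat.mul_le_mul_left _ h3)))
  refine Real.le_sqrt_of_sq_le ?_
  have h5 : ((((E1 A ∩ E2 B) ∩ E3 C).card : ℝ)) ^ 2 ≤ (A.card : ℝ) * (B.card * C.card) := by
    exact_mod_cast h4
  rw [mul_assoc]
  exact h5

theorem card_three {n a b c : ℕ} (hm : 1 ≤ m) (hmn : m ≤ n)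
    (A B C : Fin 4 → Finset (Fin m × Fin m)) (hA : ∀ q, (A q).card ≤ a)
    (hB : ∀ q, (B q).card ≤ b) (hC : ∀ q, (C q).card ≤ c) (p r s : Fin 4) :
    ((univ.filter (fun T : Fin 4 → Fin m × Fin m × Fin m =>
      T p ∈ E1 (A p) ∧ T r ∈ E2 (B r) ∧ T s ∈ E3 (C s))).card : ℝ) ≤
      (m : ℝ) ^ 9 * tri n a b c := by
  have hM : (1 : ℝ) ≤ m := by exact_mod_cast hm
  have hMn : (m : ℝ) ≤ n := by exact_mod_cast hmn
  have hτ : (Fintype.card (Fin m × Fin m × Fin m) : ℝ) = (m : ℝ) ^ 3 := by
    simp only [Fintype.card_prod, Fintype.card_fin]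
    push_cast
    ring
  have hA' : ∀ q, ((A q).card : ℝ) ≤ a := fun q => by exact_mod_cast hA q
  have hB' : ∀ q, ((B q).card : ℝ) ≤ b := fun q => by exact_mod_cast hB q
  have hC' : ∀ q, ((C q).card : ℝ) ≤ c := fun q => by exact_mod_cast hC q
  have e1 : ∀ q, ((E1 (A q)).card : ℝ) ≤ m * a := by
    intro q
    have h : ((E1 (A q)).card : ℝ) ≤ m * (A q).card := by exact_mod_cast card_E1 (A q)
    exact h.trans (mul_le_mul_of_nonneg_left (hA' q) (by positivity))
  have e2 : ∀ q, ((E2 (B q)).card : ℝ) ≤ m * b := by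
    intro q
    have h : ((E2 (B q)).card : ℝ) ≤ m * (B q).card := by exact_mod_cast card_E2 (B q)
    exact h.trans (mul_le_mul_of_nonneg_left (hB' q) (by positivity))
  have e3 : ∀ q, ((E3 (C q)).card : ℝ) ≤ m * c := by
    intro q
    have h : ((E3 (C q)).card : ℝ) ≤ m * (C q).card := by exact_mod_cast card_E3 (C q)
    exact h.trans (mul_le_mul_of_nonneg_left (hC' q) (by positivity))
  have e12 : ∀ q, ((E1 (A q) ∩ E2 (B q)).card : ℝ) ≤ a * b := by
    intro q
    have h : ((E1 (A q) ∩ E2 (B q)).card : ℝ) ≤ (A q).card * (B q).card := by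
      exact_mod_cast card_E12 (A q) (B q)
    exact h.trans (mul_le_mul (hA' q) (hB' q) (by positivity) (by positivity))
  have e13 : ∀ q, ((E1 (A q) ∩ E3 (C q)).card : ℝ) ≤ a * c := by
    intro q
    have h : ((E1 (A q) ∩ E3 (C q)).card : ℝ) ≤ (A q).card * (C q).card := by
      exact_mod_cast card_E13 (A q) (C q)
    exact h.trans (mul_le_mul (hA' q) (hC' q) (by positivity) (by positivity))
  have e23 : ∀ q, ((E2 (B q) ∩ E3 (C q)).card : ℝ) ≤ b * c := by
    intro q
    have h : ((E2 (B q) ∩ E3 (C q)).card : ℝ) ≤ (B q).card * (C q).card := by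
      exact_mod_cast card_E23 (B q) (C q)
    exact h.trans (mul_le_mul (hB' q) (hC' q) (by positivity) (by positivity))
  have e123 : ∀ q, (((E1 (A q) ∩ E2 (B q)) ∩ E3 (C q)).card : ℝ) ≤
      Real.sqrt ((a : ℝ) * b * c) := by
    intro q
    refine (card_E123 (A q) (B q) (C q)).trans (Real.sqrt_le_sqrt ?_)
    exact mul_le_mul (mul_le_mul (hA' q) (hB' q) (by positivity) (by positivity)) (hC' q)
      (by positivity) (by positivity)
  have sub : ∀ P : (Fin 4 → Fin m × Fin m × Fin m) → Prop, ∀ _ : DecidablePred P,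
      (∀ T, T p ∈ E1 (A p) ∧ T r ∈ E2 (B r) ∧ T s ∈ E3 (C s) → P T) →
      ((univ.filter (fun T : Fin 4 → Fin m × Fin m × Fin m =>
        T p ∈ E1 (A p) ∧ T r ∈ E2 (B r) ∧ T s ∈ E3 (C s))).card : ℝ) ≤
      ((univ.filter P).card : ℝ) := by
    intro P _ hP
    have h : (univ.filter (fun T : Fin 4 → Fin m × Fin m × Fin m =>
        T p ∈ E1 (A p) ∧ T r ∈ E2 (B r) ∧ T s ∈ E3 (C s))) ⊆ univ.filter P := by
      intro T hT
      rw [mem_filter] at hT ⊢
      exact ⟨hT.1, hP T hT.2⟩
    exact_mod_cast card_le_card h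
  have hpow : (0 : ℝ) ≤ (m : ℝ) ^ 9 := by positivity
  unfold tri
  rw [mul_min_of_nonneg _ _ hpow, mul_min_of_nonneg _ _ hpow]
  refine le_min ?_ (le_min ?_ ?_)
  · exact three_le (m : ℝ) a b c hM (by positivity) (by positivity) (by positivity) hτ
      (fun q => E1 (A q)) (fun q => E2 (B q)) (fun q => E3 (C q)) e1 e2 e3 e123 p r s
  · rw [mul_min_of_nonneg _ _ hpow, mul_min_of_nonneg _ _ hpow]
    refine le_min ?_ (le_min ?_ ?_)
    · exact (sub _ _ (fun T h => ⟨h.1, h.2.1⟩)).trans (two_le (m : ℝ) a b hM (by positivity)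
        (by positivity) hτ (fun q => E1 (A q)) (fun q => E2 (B q)) e1 e2 e12 p r)
    · exact (sub _ _ (fun T h => ⟨h.2.1, h.2.2⟩)).trans (two_le (m : ℝ) b c hM (by positivity)
        (by positivity) hτ (fun q => E2 (B q)) (fun q => E3 (C q)) e2 e3 e23 r s)
    · exact (sub _ _ (fun T h => ⟨h.1, h.2.2⟩)).trans (two_le (m : ℝ) a c hM (by positivity)
        (by positivity) hτ (fun q => E1 (A q)) (fun q => E3 (C q)) e1 e3 e13 p s)
  · have hlast : (m : ℝ) ^ 9 * ((m : ℝ) * min (a : ℝ) (min (b : ℝ) (c : ℝ))) ≤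
        (m : ℝ) ^ 9 * ((n : ℝ) * min (a : ℝ) (min (b : ℝ) (c : ℝ))) :=
      mul_le_mul_of_nonneg_left (mul_le_mul_of_nonneg_right hMn (by positivity)) hpow
    refine le_trans ?_ hlast
    · have hm0 : (0 : ℝ) ≤ m := by linarith
      rw [mul_min_of_nonneg _ _ hm0, mul_min_of_nonneg _ _ hm0, mul_min_of_nonneg _ _ hpow,
        mul_min_of_nonneg _ _ hpow]
      refine le_min ?_ (le_min ?_ ?_)
      · exact (sub _ _ (fun T h => h.1)).trans
          (one_le (m : ℝ) a (by linarith) hτ (fun q => E1 (A q)) e1 p)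
      · exact (sub _ _ (fun T h => h.2.1)).trans
          (one_le (m : ℝ) b (by linarith) hτ (fun q => E2 (B q)) e2 r)
      · exact (sub _ _ (fun T h => h.2.2)).trans
          (one_le (m : ℝ) c (by linarith) hτ (fun q => E3 (C q)) e3 s)

/-- **The count.** Among all the `m ^ 12` choices of four triangles at most
`64 * m ^ 9 * tri n a b c` are such that some edge `x y` of a triangle is marked, some edge `y z`
and some edge `x z`. -/
theorem card_meet {n a b c : ℕ} (hm : 1 ≤ m) (hmn : m ≤ n)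
    (A B C : Fin 4 → Finset (Fin m × Fin m)) (hA : ∀ q, (A q).card ≤ a)
    (hB : ∀ q, (B q).card ≤ b) (hC : ∀ q, (C q).card ≤ c) :
    ((univ.filter (fun T : Fin 4 → Fin m × Fin m × Fin m =>
      (∃ q, ((T q).1, (T q).2.1) ∈ A q) ∧ (∃ q, ((T q).2.1, (T q).2.2) ∈ B q) ∧
      (∃ q, ((T q).1, (T q).2.2) ∈ C q))).card : ℝ) ≤ 64 * ((m : ℝ) ^ 9 * tri n a b c) := by
  have h1 : (univ.filter (fun T : Fin 4 → Fin m × Fin m × Fin m =>
      (∃ q, ((T q).1, (T q).2.1) ∈ A q) ∧ (∃ q, ((T q).2.1, (T q).2.2) ∈ B q) ∧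
      (∃ q, ((T q).1, (T q).2.2) ∈ C q))) ⊆
      (univ : Finset (Fin 4 × Fin 4 × Fin 4)).biUnion (fun u =>
        univ.filter (fun T : Fin 4 → Fin m × Fin m × Fin m =>
          T u.1 ∈ E1 (A u.1) ∧ T u.2.1 ∈ E2 (B u.2.1) ∧ T u.2.2 ∈ E3 (C u.2.2))) := by
    intro T hT
    simp only [mem_filter, mem_univ, true_and] at hT
    obtain ⟨⟨p, hp⟩, ⟨r, hr⟩, ⟨s, hs⟩⟩ := hT
    simp only [mem_biUnion, mem_filter, mem_univ, true_and, E1, E2, E3]
    exact ⟨(p, r, s), hp, hr, hs⟩
  have h2 := (card_le_card h1).trans card_biUnion_le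
  have h3 : ((univ.filter (fun T : Fin 4 → Fin m × Fin m × Fin m =>
      (∃ q, ((T q).1, (T q).2.1) ∈ A q) ∧ (∃ q, ((T q).2.1, (T q).2.2) ∈ B q) ∧
      (∃ q, ((T q).1, (T q).2.2) ∈ C q))).card : ℝ) ≤
      ∑ u : Fin 4 × Fin 4 × Fin 4, ((univ.filter (fun T : Fin 4 → Fin m × Fin m × Fin m =>
          T u.1 ∈ E1 (A u.1) ∧ T u.2.1 ∈ E2 (B u.2.1) ∧ T u.2.2 ∈ E3 (C u.2.2))).card : ℝ) := by
    exact_mod_cast h2
  refine h3.trans ((Finset.sum_le_sum (fun u _ =>
    card_three hm hmn A B C hA hB hC u.1 u.2.1 u.2.2)).trans (le_of_eq ?_))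
  rw [Finset.sum_const, Finset.card_univ]
  simp only [Fintype.card_prod, Fintype.card_fin, nsmul_eq_mul]
  norm_num

end conc

end Pool.Agent.Helper53.DG
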