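import Pool.Agent.Helper53.DG.Count
import Pool.Agent.Helper56.DG.MeetMin

/-!
# Digests, second part: the weighted count for three sides
-/

set_option autoImplicit false

open Finset

namespace Pool.Agent.Helper53.DG

open Pool.Agent.Helper94.DG

/-- `1` if `P` holds, otherwise `0` -/
noncomputable def ind (P : Prop) : ℝ := open Classical in if P then 1 else 0

theorem ind_nonneg (P : Prop) : 0 ≤ ind P := by
  unfold ind
  split_ifs <;> norm_num

theorem ind_le_one (P : Prop) : ind P ≤ 1 := by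
  unfold ind
  split_ifs <;> norm_num

theorem ind_pos {P : Prop} (h : P) : ind P = 1 := by
  unfold ind
  rw [if_pos h]

/-- the weight of the families with `P p (T p)`, `Q r (T r)`, `R s (T s)` -/
theorem family {α : Type} [Fintype α] (g : Fin 4 → α → ℝ) (F X : Fin 4 → ℝ)
    (h0 : ∀ q T, 0 ≤ g q T) (P Q R : Fin 4 → α → Prop) (p r s : Fin 4)
    (hX : ∀ q, ∑ t, g q t * ((if q = p then ind (P q t) else 1) *
      (if q = r then ind (Q q t) else 1) * (if q = s then ind (R q t) else 1)) ≤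
      (1 + F q) * X q) :
    ∑ T : Fin 4 → α, (∏ q, g q (T q)) * (ind (P p (T p)) * ind (Q r (T r)) * ind (R s (T s))) ≤
      (∏ q, (1 + F q)) * ∏ q, X q := by
  classical
  have e1 : ∀ T : Fin 4 → α, (∏ q, g q (T q)) *
      (ind (P p (T p)) * ind (Q r (T r)) * ind (R s (T s))) =
      ∏ q, g q (T q) * ((if q = p then ind (P q (T q)) else 1) *
      (if q = r then ind (Q q (T q)) else 1) * (if q = s then ind (R q (T q)) else 1)) := by
    intro T
    rw [Finset.prod_mul_distrib, Finset.prod_mul_distrib, Finset.prod_mul_distrib,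
      Finset.prod_ite_eq' univ p, Finset.prod_ite_eq' univ r, Finset.prod_ite_eq' univ s,
      if_pos (mem_univ p), if_pos (mem_univ r), if_pos (mem_univ s)]
  rw [Finset.sum_congr rfl (fun T _ => e1 T)]
  have e2 : ∑ T : Fin 4 → α, ∏ q, g q (T q) * ((if q = p then ind (P q (T q)) else 1) *
      (if q = r then ind (Q q (T q)) else 1) * (if q = s then ind (R q (T q)) else 1)) =
      ∏ q, ∑ t : α, g q t * ((if q = p then ind (P q t) else 1) *
      (if q = r then ind (Q q t) else 1) * (if q = s then ind (R q t) else 1)) := by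
    rw [Finset.prod_univ_sum, Fintype.piFinset_univ]
  rw [e2, ← Finset.prod_mul_distrib]
  refine Finset.prod_le_prod (fun q _ => Finset.sum_nonneg fun t _ => mul_nonneg (h0 q t) ?_)
    (fun q _ => hX q)
  refine mul_nonneg (mul_nonneg ?_ ?_) ?_
  · split_ifs
    · exact ind_nonneg _
    · norm_num
  · split_ifs
    · exact ind_nonneg _
    · norm_num
  · split_ifs
    · exact ind_nonneg _
    · norm_num

theorem side1 {m : ℕ} (g : Fin 4 → Tri m → ℝ) (τ : ℝ) (hτ : 0 ≤ τ)
    (h01 : ∀ q i j, ∑ k, g q (i, j, k) ≤ τ) (A : Fin 4 → Fin m → Fin m → Prop) (a : ℕ)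
    (ha : ∀ q, open Classical in (univ.filter fun e : Fin m × Fin m => A q e.1 e.2).card ≤ a)
    (q : Fin 4) : ∑ T : Tri m, g q T * ind (A q T.1 T.2.1) ≤ τ * a := by
  classical
  rw [Helper56.DG.sum_tri]
  have e : ∀ i j : Fin m, ∑ k, g q (i, j, k) * ind (A q i j) =
      (∑ k, g q (i, j, k)) * ind (A q i j) := fun i j => by rw [Finset.sum_mul]
  rw [Finset.sum_congr rfl (fun i _ => Finset.sum_congr rfl (fun j _ => e i j))]
  exact Helper56.DG.sum_cells (A q) a (ha q) _ τ hτ (h01 q)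

theorem side2 {m : ℕ} (g : Fin 4 → Tri m → ℝ) (τ : ℝ) (hτ : 0 ≤ τ)
    (h12 : ∀ q j k, ∑ i, g q (i, j, k) ≤ τ) (B : Fin 4 → Fin m → Fin m → Prop) (b : ℕ)
    (hb : ∀ q, open Classical in (univ.filter fun e : Fin m × Fin m => B q e.1 e.2).card ≤ b)
    (q : Fin 4) : ∑ T : Tri m, g q T * ind (B q T.2.1 T.2.2) ≤ τ * b := by
  classical
  rw [Helper56.DG.sum_tri]
  calc ∑ i, ∑ j, ∑ k, g q (i, j, k) * ind (B q j k)
      = ∑ j, ∑ k, (∑ i, g q (i, j, k)) * ind (B q j k) := by
        rw [Finset.sum_comm]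
        refine Finset.sum_congr rfl fun j _ => ?_
        rw [Finset.sum_comm]
        exact Finset.sum_congr rfl fun k _ => by rw [Finset.sum_mul]
    _ ≤ _ := Helper56.DG.sum_cells (B q) b (hb q) _ τ hτ (h12 q)

theorem side3 {m : ℕ} (g : Fin 4 → Tri m → ℝ) (τ : ℝ) (hτ : 0 ≤ τ)
    (h02 : ∀ q i k, ∑ j, g q (i, j, k) ≤ τ) (C : Fin 4 → Fin m → Fin m → Prop) (c : ℕ)
    (hc : ∀ q, open Classical in (univ.filter fun e : Fin m × Fin m => C q e.1 e.2).card ≤ c)
    (q : Fin 4) : ∑ T : Tri m, g q T * ind (C q T.1 T.2.2) ≤ τ * c := by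
  classical
  rw [Helper56.DG.sum_tri]
  calc ∑ i, ∑ j, ∑ k, g q (i, j, k) * ind (C q i k)
      = ∑ i, ∑ k, (∑ j, g q (i, j, k)) * ind (C q i k) := by
        refine Finset.sum_congr rfl fun i _ => ?_
        rw [Finset.sum_comm]
        exact Finset.sum_congr rfl fun k _ => by rw [Finset.sum_mul]
    _ ≤ _ := Helper56.DG.sum_cells (C q) c (hc q) _ τ hτ (h02 q)

theorem sum_three {m : ℕ} (A B C : Fin m → Fin m → Prop) (a b c : ℕ)
    (ha : open Classical in (univ.filter fun e : Fin m × Fin m => A e.1 e.2).card ≤ a)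
    (hb : open Classical in (univ.filter fun e : Fin m × Fin m => B e.1 e.2).card ≤ b)
    (hc : open Classical in (univ.filter fun e : Fin m × Fin m => C e.1 e.2).card ≤ c) :
    ∑ T : Tri m, ind (A T.1 T.2.1) * ind (B T.2.1 T.2.2) * ind (C T.1 T.2.2) ≤
      Real.sqrt a * Real.sqrt b * Real.sqrt c := by
  classical
  have h1 : ∑ T : Tri m, ind (A T.1 T.2.1) * ind (B T.2.1 T.2.2) * ind (C T.1 T.2.2) ≤
      (((E1 (univ.filter fun e : Fin m × Fin m => A e.1 e.2) ∩
        E2 (univ.filter fun e : Fin m × Fin m => B e.1 e.2)) ∩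
        E3 (univ.filter fun e : Fin m × Fin m => C e.1 e.2)).card : ℝ) := by
    rw [Finset.card_eq_sum_ones, Nat.cast_sum, ← Finset.sum_filter_add_sum_filter_not univ
      (fun T : Tri m => T ∈ (E1 (univ.filter fun e : Fin m × Fin m => A e.1 e.2) ∩
        E2 (univ.filter fun e : Fin m × Fin m => B e.1 e.2)) ∩
        E3 (univ.filter fun e : Fin m × Fin m => C e.1 e.2))]
    have e2 : ∑ T ∈ univ.filter (fun T : Tri m =>
        ¬ T ∈ (E1 (univ.filter fun e : Fin m × Fin m => A e.1 e.2) ∩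
        E2 (univ.filter fun e : Fin m × Fin m => B e.1 e.2)) ∩
        E3 (univ.filter fun e : Fin m × Fin m => C e.1 e.2)),
        ind (A T.1 T.2.1) * ind (B T.2.1 T.2.2) * ind (C T.1 T.2.2) = 0 := by
      refine Finset.sum_eq_zero fun T hT => ?_
      rw [mem_filter] at hT
      unfold ind
      split_ifs with x1 x2 x3
      · exfalso
        refine hT.2 ?_
        simp only [E1, E2, E3, mem_inter, mem_filter, mem_univ, true_and]
        exact ⟨⟨x1, x2⟩, x3⟩
      all_goals norm_num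
    rw [e2, add_zero]
    have e3 : univ.filter (fun T : Tri m => T ∈ (E1 (univ.filter fun e : Fin m × Fin m =>
        A e.1 e.2) ∩ E2 (univ.filter fun e : Fin m × Fin m => B e.1 e.2)) ∩
        E3 (univ.filter fun e : Fin m × Fin m => C e.1 e.2)) =
        (E1 (univ.filter fun e : Fin m × Fin m => A e.1 e.2) ∩
        E2 (univ.filter fun e : Fin m × Fin m => B e.1 e.2)) ∩
        E3 (univ.filter fun e : Fin m × Fin m => C e.1 e.2) := by
      ext T
      simp
    rw [e3]
    refine Finset.sum_le_sum fun T _ => ?_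
    have := mul_le_one₀ (mul_le_one₀ (ind_le_one (A T.1 T.2.1)) (ind_nonneg (B T.2.1 T.2.2))
      (ind_le_one _)) (ind_nonneg (C T.1 T.2.2)) (ind_le_one _)
    simpa using this
  have h2 := card_E123 (univ.filter fun e : Fin m × Fin m => A e.1 e.2)
    (univ.filter fun e : Fin m × Fin m => B e.1 e.2)
    (univ.filter fun e : Fin m × Fin m => C e.1 e.2)
  refine h1.trans (h2.trans ?_)
  rw [← Real.sqrt_mul (by positivity), ← Real.sqrt_mul (by positivity)]
  refine Real.sqrt_le_sqrt ?_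
  exact_mod_cast Nat.mul_le_mul (Nat.mul_le_mul ha hb) hc

/-- one part -/
theorem part_bound {s F e a t : ℝ} (hs0 : 0 ≤ s) (hsF : s ≤ F) (he : 0 ≤ e) (ha : 0 ≤ a)
    (ht : t ≤ e ^ 2) (hs : s ≤ t * a) : s ≤ (1 + F) * (e * Real.sqrt a) := by
  have hF0 : 0 ≤ F := hs0.trans hsF
  have h1 : s ≤ e ^ 2 * a := hs.trans (mul_le_mul_of_nonneg_right ht ha)
  have h2 : s ^ 2 ≤ ((1 + F) * (e * Real.sqrt a)) ^ 2 := by
    have e1 : ((1 + F) * (e * Real.sqrt a)) ^ 2 = (1 + F) ^ 2 * (e ^ 2 * a) := by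
      calc ((1 + F) * (e * Real.sqrt a)) ^ 2 = (1 + F) ^ 2 * (e ^ 2 * Real.sqrt a ^ 2) := by ring
        _ = (1 + F) ^ 2 * (e ^ 2 * a) := by rw [Real.sq_sqrt ha]
    rw [e1, sq s]
    have e2 : F ≤ (1 + F) ^ 2 := by nlinarith
    exact mul_le_mul (hsF.trans e2) h1 hs0 (by positivity)
  exact (pow_le_pow_iff_left₀ hs0 (by positivity) (by norm_num)).1 h2

/-- two parts -/
theorem part_two {s F e a b t : ℝ} (hs0 : 0 ≤ s) (hsF : s ≤ F) (ha : 0 ≤ a) (hb : 0 ≤ b)
    (ht : t ≤ e ^ 2) (hs : s ≤ t * a) (hs' : s ≤ t * b) :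
    s ≤ (1 + F) * (e * Real.sqrt a * (e * Real.sqrt b)) := by
  have hF0 : 0 ≤ F := hs0.trans hsF
  have h1 : s ≤ e ^ 2 * a := hs.trans (mul_le_mul_of_nonneg_right ht ha)
  have h2 : s ≤ e ^ 2 * b := hs'.trans (mul_le_mul_of_nonneg_right ht hb)
  have e3 := sqrt_bound h1 h2 hs0
  have e4 : e ^ 2 * a * (e ^ 2 * b) = (e ^ 2) ^ 2 * (a * b) := by ring
  rw [e4, Real.sqrt_mul (sq_nonneg _), Real.sqrt_sq (sq_nonneg e), Real.sqrt_mul ha] at e3
  have e5 : 0 ≤ e ^ 2 * (Real.sqrt a * Real.sqrt b) := hs0.trans e3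
  have e6 : e * Real.sqrt a * (e * Real.sqrt b) = e ^ 2 * (Real.sqrt a * Real.sqrt b) := by ring
  rw [e6]
  nlinarith

open Classical in
theorem meet_sqrt {m : ℕ} (hm : 0 < m) (g : Fin 4 → Tri m → ℝ) (F : Fin 4 → ℝ) (h K : ℝ)
    (hh : 1 ≤ h) (hK : 1 ≤ K)
    (h0 : ∀ q T, 0 ≤ g q T) (hF : ∀ q, ∑ T, g q T ≤ F q)
    (hg : ∀ q T, g q T ≤ h * K / (m : ℝ) ^ 3)
    (h01 : ∀ q i j, ∑ k, g q (i, j, k) ≤ h * (m + K) / (m : ℝ) ^ 3)
    (h12 : ∀ q j k, ∑ i, g q (i, j, k) ≤ h * (m + K) / (m : ℝ) ^ 3)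
    (h02 : ∀ q i k, ∑ j, g q (i, j, k) ≤ h * (m + K) / (m : ℝ) ^ 3)
    (A B C : Fin 4 → Fin m → Fin m → Prop)
    (a b c : ℕ) (ha : ∀ q, (univ.filter fun e : Fin m × Fin m => A q e.1 e.2).card ≤ a)
    (hb : ∀ q, (univ.filter fun e : Fin m × Fin m => B q e.1 e.2).card ≤ b)
    (hc : ∀ q, (univ.filter fun e : Fin m × Fin m => C q e.1 e.2).card ≤ c) :
    ∑ T : Fin 4 → Tri m, (∏ q, g q (T q)) * (if Meets A B C T then 1 else 0) ≤
      512 * h ^ 3 * K * √((a : ℝ) * b * c) / (m : ℝ) ^ 3 * ∏ q, (1 + F q) := by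
  have hM : (1 : ℝ) ≤ (m : ℝ) := by exact_mod_cast hm
  have hM0 : (0 : ℝ) < (m : ℝ) := by linarith
  have hF0 : ∀ q, 0 ≤ F q := fun q => le_trans (Finset.sum_nonneg fun T _ => h0 q T) (hF q)
  have hP0 : 0 ≤ ∏ q, (1 + F q) := Finset.prod_nonneg fun q _ => by linarith [hF0 q]
  have hR0 : 0 ≤ 512 * h ^ 3 * K * √((a : ℝ) * b * c) / (m : ℝ) ^ 3 * ∏ q, (1 + F q) := by
    positivity
  have hG0 : ∀ T : Fin 4 → Tri m, 0 ≤ ∏ q, g q (T q) := fun T =>
    Finset.prod_nonneg fun q _ => h0 q (T q)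
  have hsq : √((a : ℝ) * b * c) = √(a : ℝ) * √(b : ℝ) * √(c : ℝ) := by
    rw [Real.sqrt_mul (by positivity), Real.sqrt_mul (by positivity)]
  by_cases hK3 : K ≤ (m : ℝ) ^ 3
  · obtain ⟨k, hk1, hk3⟩ : ∃ k : ℝ, 1 ≤ k ∧ k ^ 3 = K := by
      refine ⟨K ^ ((1 : ℝ) / 3), Real.one_le_rpow hK (by norm_num), ?_⟩
      rw [← Real.rpow_natCast, ← Real.rpow_mul (by linarith)]
      norm_num
    have hkm : k ≤ (m : ℝ) := by
      refine (pow_le_pow_iff_left₀ (by linarith) hM0.le (by norm_num : (3 : ℕ) ≠ 0)).1 ?_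
      rw [hk3]
      exact hK3
    have he0 : 0 ≤ 2 * h * k / (m : ℝ) := by positivity
    have hτ0 : 0 ≤ h * (m + K) / (m : ℝ) ^ 3 := by positivity
    have hτ : h * (m + K) / (m : ℝ) ^ 3 ≤ (2 * h * k / (m : ℝ)) ^ 2 := by
      rw [div_pow, div_le_div_iff₀ (by positivity) (by positivity), ← hk3]
      have e1 : (m : ℝ) + k ^ 3 ≤ 2 * k ^ 2 * m := by
        have e2 : (m : ℝ) ≤ k ^ 2 * m := le_mul_of_one_le_left hM0.le (one_le_pow₀ hk1)
        have e3 : k ^ 3 ≤ k ^ 2 * m := by
          calc k ^ 3 = k ^ 2 * k := by ring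
            _ ≤ k ^ 2 * m := mul_le_mul_of_nonneg_left hkm (by positivity)
        linarith
      have e4 : h * (m + k ^ 3) ≤ 4 * h ^ 2 * k ^ 2 * m := by
        calc h * (m + k ^ 3) ≤ h * (2 * k ^ 2 * m) := mul_le_mul_of_nonneg_left e1 (by linarith)
          _ = h * (2 * (k ^ 2 * m)) := by ring
          _ ≤ h * (4 * h * (k ^ 2 * m)) := by
            refine mul_le_mul_of_nonneg_left ?_ (by linarith)
            refine mul_le_mul_of_nonneg_right (by linarith) (by positivity)
          _ = 4 * h ^ 2 * k ^ 2 * m := by ring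
      calc h * (m + k ^ 3) * (m : ℝ) ^ 2 ≤ 4 * h ^ 2 * k ^ 2 * m * (m : ℝ) ^ 2 :=
            mul_le_mul_of_nonneg_right e4 (by positivity)
        _ = (2 * h * k) ^ 2 * (m : ℝ) ^ 3 := by ring
    have hhK : h * K / (m : ℝ) ^ 3 ≤ (2 * h * k / (m : ℝ)) ^ 3 := by
      rw [div_pow, ← hk3]
      refine div_le_div_of_nonneg_right ?_ (by positivity)
      have e1 : h ≤ 8 * h ^ 3 := by nlinarith [sq_nonneg h, mul_pos (by linarith : (0:ℝ) < h) (by linarith : (0:ℝ) < h)]
      calc h * k ^ 3 ≤ 8 * h ^ 3 * k ^ 3 := mul_le_mul_of_nonneg_right e1 (by positivity)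
        _ = (2 * h * k) ^ 3 := by ring
    set e : ℝ := 2 * h * k / (m : ℝ) with he
    have s1 := side1 g _ hτ0 h01 A a ha
    have s2 := side2 g _ hτ0 h12 B b hb
    have s3 := side3 g _ hτ0 h02 C c hc
    have hX : ∀ p r s q : Fin 4, ∑ t : Tri m, g q t * ((if q = p then ind (A q t.1 t.2.1) else 1) *
        (if q = r then ind (B q t.2.1 t.2.2) else 1) *
        (if q = s then ind (C q t.1 t.2.2) else 1)) ≤
        (1 + F q) * ((if q = p then e * √(a : ℝ) else 1) * (if q = r then e * √(b : ℝ) else 1) *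
          (if q = s then e * √(c : ℝ) else 1)) := by
      intro p r s q
      have hn : ∀ (w : Tri m → ℝ), (∀ t, 0 ≤ w t) → 0 ≤ ∑ t : Tri m, g q t * w t := fun w hw =>
        Finset.sum_nonneg fun t _ => mul_nonneg (h0 q t) (hw t)
      have hle : ∀ (w w' : Tri m → ℝ), (∀ t, w t ≤ w' t) →
          ∑ t : Tri m, g q t * w t ≤ ∑ t : Tri m, g q t * w' t := fun w w' hw =>
        Finset.sum_le_sum fun t _ => mul_le_mul_of_nonneg_left (hw t) (h0 q t)
      have hone : ∀ (w : Tri m → ℝ), (∀ t, w t ≤ 1) → ∑ t : Tri m, g q t * w t ≤ F q := by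
        intro w hw
        refine (hle w (fun _ => 1) hw).trans ?_
        simpa using hF q
      have i0 := ind_nonneg
      have i1 := ind_le_one
      by_cases hp : q = p <;> by_cases hr : q = r <;> by_cases hs : q = s
      · rw [if_pos hp, if_pos hr, if_pos hs]
        simp only [if_pos hp, if_pos hr, if_pos hs]
        have e1 : ∑ t : Tri m, g q t * (ind (A q t.1 t.2.1) * ind (B q t.2.1 t.2.2) *
            ind (C q t.1 t.2.2)) ≤ e ^ 3 * (√(a : ℝ) * √(b : ℝ) * √(c : ℝ)) := by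
          calc ∑ t : Tri m, g q t * (ind (A q t.1 t.2.1) * ind (B q t.2.1 t.2.2) *
              ind (C q t.1 t.2.2)) ≤ ∑ t : Tri m, e ^ 3 * (ind (A q t.1 t.2.1) *
                ind (B q t.2.1 t.2.2) * ind (C q t.1 t.2.2)) :=
                Finset.sum_le_sum fun t _ => mul_le_mul_of_nonneg_right ((hg q t).trans hhK)
                  (mul_nonneg (mul_nonneg (i0 _) (i0 _)) (i0 _))
            _ = e ^ 3 * ∑ t : Tri m, (ind (A q t.1 t.2.1) *
                ind (B q t.2.1 t.2.2) * ind (C q t.1 t.2.2)) := by rw [Finset.mul_sum]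
            _ ≤ _ := mul_le_mul_of_nonneg_left
                (sum_three (A q) (B q) (C q) a b c (ha q) (hb q) (hc q)) (by positivity)
        have e2 : e ^ 3 * (√(a : ℝ) * √(b : ℝ) * √(c : ℝ)) =
            e * √(a : ℝ) * (e * √(b : ℝ)) * (e * √(c : ℝ)) := by ring
        rw [e2] at e1
        have e3 : 0 ≤ e * √(a : ℝ) * (e * √(b : ℝ)) * (e * √(c : ℝ)) := by positivity
        nlinarith [hF0 q]
      · simp only [if_pos hp, if_pos hr, if_neg hs, mul_one]
        refine part_two (hn _ fun t => mul_nonneg (i0 _) (i0 _))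
          (hone _ fun t => mul_le_one₀ (i1 _) (i0 _) (i1 _)) (by positivity) (by positivity) hτ
          ((hle _ _ fun t => mul_le_of_le_one_right (i0 _) (i1 _)).trans (s1 q))
          ((hle _ _ fun t => mul_le_of_le_one_left (i0 _) (i1 _)).trans (s2 q))
      · simp only [if_pos hp, if_neg hr, if_pos hs, mul_one]
        refine part_two (hn _ fun t => mul_nonneg (i0 _) (i0 _))
          (hone _ fun t => mul_le_one₀ (i1 _) (i0 _) (i1 _)) (by positivity) (by positivity) hτ
          ((hle _ _ fun t => mul_le_of_le_one_right (i0 _) (i1 _)).trans (s1 q))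
          ((hle _ _ fun t => mul_le_of_le_one_left (i0 _) (i1 _)).trans (s3 q))
      · simp only [if_pos hp, if_neg hr, if_neg hs, mul_one]
        exact part_bound (hn _ fun t => i0 _) (hone _ fun t => i1 _) he0 (by positivity) hτ (s1 q)
      · simp only [if_neg hp, if_pos hr, if_pos hs, one_mul]
        refine part_two (hn _ fun t => mul_nonneg (i0 _) (i0 _))
          (hone _ fun t => mul_le_one₀ (i1 _) (i0 _) (i1 _)) (by positivity) (by positivity) hτ
          ((hle _ _ fun t => mul_le_of_le_one_right (i0 _) (i1 _)).trans (s2 q))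
          ((hle _ _ fun t => mul_le_of_le_one_left (i0 _) (i1 _)).trans (s3 q))
      · simp only [if_neg hp, if_pos hr, if_neg hs, one_mul, mul_one]
        exact part_bound (hn _ fun t => i0 _) (hone _ fun t => i1 _) he0 (by positivity) hτ (s2 q)
      · simp only [if_neg hp, if_neg hr, if_pos hs, one_mul, mul_one]
        exact part_bound (hn _ fun t => i0 _) (hone _ fun t => i1 _) he0 (by positivity) hτ (s3 q)
      · simp only [if_neg hp, if_neg hr, if_neg hs, mul_one]
        linarith [hF q]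
    have hone : ∀ p r s : Fin 4, ∑ T : Fin 4 → Tri m, (∏ q, g q (T q)) *
        (ind (A p (T p).1 (T p).2.1) * ind (B r (T r).2.1 (T r).2.2) *
          ind (C s (T s).1 (T s).2.2)) ≤
        (∏ q, (1 + F q)) * (e ^ 3 * (√(a : ℝ) * √(b : ℝ) * √(c : ℝ))) := by
      intro p r s
      have := family g F (fun q => (if q = p then e * √(a : ℝ) else 1) *
        (if q = r then e * √(b : ℝ) else 1) * (if q = s then e * √(c : ℝ) else 1)) h0
        (fun q T => A q T.1 T.2.1) (fun q T => B q T.2.1 T.2.2) (fun q T => C q T.1 T.2.2)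
        p r s (hX p r s)
      refine this.trans (le_of_eq ?_)
      rw [Finset.prod_mul_distrib, Finset.prod_mul_distrib, Finset.prod_ite_eq' univ p,
        Finset.prod_ite_eq' univ r, Finset.prod_ite_eq' univ s,
        if_pos (mem_univ p), if_pos (mem_univ r), if_pos (mem_univ s)]
      ring
    have hmeet : ∀ T : Fin 4 → Tri m, (if Meets A B C T then (1 : ℝ) else 0) ≤
        ∑ p : Fin 4, ∑ r : Fin 4, ∑ s : Fin 4, (ind (A p (T p).1 (T p).2.1) *
          ind (B r (T r).2.1 (T r).2.2) * ind (C s (T s).1 (T s).2.2)) := by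
      intro T
      have hnn : ∀ p r s : Fin 4, 0 ≤ ind (A p (T p).1 (T p).2.1) *
          ind (B r (T r).2.1 (T r).2.2) * ind (C s (T s).1 (T s).2.2) := fun p r s =>
        mul_nonneg (mul_nonneg (ind_nonneg _) (ind_nonneg _)) (ind_nonneg _)
      by_cases hM : Meets A B C T
      · rw [if_pos hM]
        obtain ⟨⟨p, hp⟩, ⟨r, hr⟩, ⟨s, hs⟩⟩ := hM
        calc (1 : ℝ) = ind (A p (T p).1 (T p).2.1) *
              ind (B r (T r).2.1 (T r).2.2) * ind (C s (T s).1 (T s).2.2) := by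
              rw [ind_pos hp, ind_pos hr, ind_pos hs]
              norm_num
          _ ≤ ∑ s : Fin 4, (ind (A p (T p).1 (T p).2.1) *
              ind (B r (T r).2.1 (T r).2.2) * ind (C s (T s).1 (T s).2.2)) :=
            Finset.single_le_sum (f := fun s => ind (A p (T p).1 (T p).2.1) *
              ind (B r (T r).2.1 (T r).2.2) * ind (C s (T s).1 (T s).2.2))
              (fun s _ => hnn p r s) (mem_univ s)
          _ ≤ ∑ r : Fin 4, ∑ s : Fin 4, (ind (A p (T p).1 (T p).2.1) *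
              ind (B r (T r).2.1 (T r).2.2) * ind (C s (T s).1 (T s).2.2)) :=
            Finset.single_le_sum (f := fun r => ∑ s : Fin 4, ind (A p (T p).1 (T p).2.1) *
              ind (B r (T r).2.1 (T r).2.2) * ind (C s (T s).1 (T s).2.2))
              (fun r _ => Finset.sum_nonneg fun s _ => hnn p r s) (mem_univ r)
          _ ≤ _ :=
            Finset.single_le_sum (f := fun p => ∑ r : Fin 4, ∑ s : Fin 4,
              ind (A p (T p).1 (T p).2.1) *
              ind (B r (T r).2.1 (T r).2.2) * ind (C s (T s).1 (T s).2.2))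
              (fun p _ => Finset.sum_nonneg fun r _ => Finset.sum_nonneg fun s _ => hnn p r s)
              (mem_univ p)
      · rw [if_neg hM]
        exact Finset.sum_nonneg fun p _ => Finset.sum_nonneg fun r _ =>
          Finset.sum_nonneg fun s _ => hnn p r s
    calc ∑ T : Fin 4 → Tri m, (∏ q, g q (T q)) * (if Meets A B C T then 1 else 0)
        ≤ ∑ T : Fin 4 → Tri m, (∏ q, g q (T q)) *
          ∑ p : Fin 4, ∑ r : Fin 4, ∑ s : Fin 4, (ind (A p (T p).1 (T p).2.1) *
          ind (B r (T r).2.1 (T r).2.2) * ind (C s (T s).1 (T s).2.2)) :=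
          Finset.sum_le_sum fun T _ => mul_le_mul_of_nonneg_left (hmeet T) (hG0 T)
      _ = ∑ p : Fin 4, ∑ r : Fin 4, ∑ s : Fin 4, ∑ T : Fin 4 → Tri m, (∏ q, g q (T q)) *
          (ind (A p (T p).1 (T p).2.1) *
          ind (B r (T r).2.1 (T r).2.2) * ind (C s (T s).1 (T s).2.2)) := by
          simp only [Finset.mul_sum]
          rw [Finset.sum_comm]
          refine Finset.sum_congr rfl fun p _ => ?_
          rw [Finset.sum_comm]
          refine Finset.sum_congr rfl fun r _ => ?_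
          rw [Finset.sum_comm]
      _ ≤ ∑ p : Fin 4, ∑ r : Fin 4, ∑ s : Fin 4,
          (∏ q, (1 + F q)) * (e ^ 3 * (√(a : ℝ) * √(b : ℝ) * √(c : ℝ))) :=
          Finset.sum_le_sum fun p _ => Finset.sum_le_sum fun r _ => Finset.sum_le_sum fun s _ =>
            hone p r s
      _ = 64 * ((∏ q, (1 + F q)) * (e ^ 3 * (√(a : ℝ) * √(b : ℝ) * √(c : ℝ)))) := by
          simp only [Finset.sum_const, Finset.card_univ, Fintype.card_fin, nsmul_eq_mul]
          push_cast
          ring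
      _ = 512 * h ^ 3 * K * √((a : ℝ) * b * c) / (m : ℝ) ^ 3 * ∏ q, (1 + F q) := by
          rw [hsq, he, div_pow, ← hk3]
          field_simp
          ring
  · have hK3' : (m : ℝ) ^ 3 < K := not_le.1 hK3
    by_cases habc : 1 ≤ a ∧ 1 ≤ b ∧ 1 ≤ c
    · have hs1 : (1 : ℝ) ≤ √((a : ℝ) * b * c) := by
        rw [← Real.sqrt_one]
        refine Real.sqrt_le_sqrt ?_
        have : 1 ≤ a * b * c := Nat.one_le_iff_ne_zero.2 (by
          have h1 := habc.1
          have h2 := habc.2.1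
          have h3 := habc.2.2
          positivity)
        exact_mod_cast this
      have h1 : ∑ T : Fin 4 → Tri m, (∏ q, g q (T q)) * (if Meets A B C T then (1 : ℝ) else 0) ≤
          ∏ q, (1 + F q) := by
        calc ∑ T : Fin 4 → Tri m, (∏ q, g q (T q)) * (if Meets A B C T then (1 : ℝ) else 0)
            ≤ ∑ T : Fin 4 → Tri m, (∏ q, g q (T q)) := by
              refine Finset.sum_le_sum fun T _ => ?_
              have : (if Meets A B C T then (1 : ℝ) else 0) ≤ 1 := by split_ifs <;> norm_num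
              calc _ ≤ (∏ q, g q (T q)) * 1 := mul_le_mul_of_nonneg_left this (hG0 T)
                _ = _ := mul_one _
          _ = ∏ q, ∑ t : Tri m, g q t := by
              rw [Finset.prod_univ_sum, Fintype.piFinset_univ]
          _ ≤ ∏ q, (1 + F q) := Finset.prod_le_prod
              (fun q _ => Finset.sum_nonneg fun T _ => h0 q T) (fun q _ => by linarith [hF q])
      refine h1.trans ?_
      have h2 : (1 : ℝ) ≤ 512 * h ^ 3 * K * √((a : ℝ) * b * c) / (m : ℝ) ^ 3 := by
        rw [le_div_iff₀ (by positivity), one_mul]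
        have e1 : (1 : ℝ) ≤ h ^ 3 := one_le_pow₀ hh
        have e2 : K ≤ 512 * h ^ 3 * K * √((a : ℝ) * b * c) := by
          calc K = 1 * K * 1 := by ring
            _ ≤ 512 * h ^ 3 * K * √((a : ℝ) * b * c) := by
              refine mul_le_mul ?_ hs1 (by norm_num) (by positivity)
              refine mul_le_mul_of_nonneg_right ?_ (by linarith)
              linarith
        linarith
      calc ∏ q, (1 + F q) = 1 * ∏ q, (1 + F q) := (one_mul _).symm
        _ ≤ _ := mul_le_mul_of_nonneg_right h2 hP0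
    · refine le_trans (le_of_eq ?_) hR0
      refine Finset.sum_eq_zero fun T _ => ?_
      have hM : ¬ Meets A B C T := by
        rintro ⟨⟨p, hp⟩, ⟨r, hr⟩, ⟨s, hs⟩⟩
        refine habc ⟨?_, ?_, ?_⟩
        · refine le_trans ?_ (ha p)
          exact Finset.card_pos.2 ⟨((T p).1, (T p).2.1), by simpa using hp⟩
        · refine le_trans ?_ (hb r)
          exact Finset.card_pos.2 ⟨((T r).2.1, (T r).2.2), by simpa using hr⟩
        · refine le_trans ?_ (hc s)
          exact Finset.card_pos.2 ⟨((T s).1, (T s).2.2), by simpa using hs⟩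
      rw [if_neg hM, mul_zero]

end Pool.Agent.Helper53.DG
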