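import Pool.Agent.Helper53.DG.Count
import Pool.Agent.Helper94.DG.Defs

/-!
# Piece B4: the number of the quadruples of triangles that are touched on all sides
-/

set_option autoImplicit false

open Finset

namespace Pool.Agent.Helper53.DG

open Pool.Agent.Helper53.TC5

open Classical in
theorem touch {m n : ℕ} (hm : 0 < m) (hmn : m ≤ n) (A B C : Fin 4 → Fin m → Fin m → Prop)
    (a b c : ℕ) (ha : ∀ q, (univ.filter fun e : Fin m × Fin m => A q e.1 e.2).card ≤ a)
    (hb : ∀ q, (univ.filter fun e : Fin m × Fin m => B q e.1 e.2).card ≤ b)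
    (hc : ∀ q, (univ.filter fun e : Fin m × Fin m => C q e.1 e.2).card ≤ c) :
    ((univ.filter fun T : Fin 4 → Fin m × Fin m × Fin m =>
      (∃ q, A q (T q).1 (T q).2.1) ∧ (∃ q, B q (T q).2.1 (T q).2.2) ∧
        (∃ q, C q (T q).1 (T q).2.2)).card : ℝ) / ((m : ℝ) ^ 3) ^ 4 ≤
      64 * tri n a b c / (m : ℝ) ^ 3 := by
  have h := card_meet (n := n) hm hmn (fun q => univ.filter fun e : Fin m × Fin m => A q e.1 e.2)
    (fun q => univ.filter fun e : Fin m × Fin m => B q e.1 e.2)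
    (fun q => univ.filter fun e : Fin m × Fin m => C q e.1 e.2) ha hb hc
  simp only [mem_filter, mem_univ, true_and] at h
  have hm0 : (0 : ℝ) < m := by exact_mod_cast hm
  rw [div_le_div_iff₀ (by positivity) (by positivity)]
  have h2 : ((m : ℝ) ^ 3) ^ 4 = (m : ℝ) ^ 9 * (m : ℝ) ^ 3 := by ring
  rw [h2]
  have h3 : 64 * tri n a b c * ((m : ℝ) ^ 9 * (m : ℝ) ^ 3) =
      64 * ((m : ℝ) ^ 9 * tri n a b c) * (m : ℝ) ^ 3 := by ring
  rw [h3]
  refine mul_le_mul_of_nonneg_right ?_ (by positivity)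
  exact h

end Pool.Agent.Helper53.DG
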