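import Mathlib
import Pool.Agent.Helper53.TC5.Model

/-!
# Digests with `n ^ 3` values: one free voter decides everything
-/

set_option autoImplicit false

namespace Pool.Agent.Helper53.DG

open Finset
open Pool.Agent.Helper22.ETModel Pool.Agent.Helper8.VT Pool.Agent.Helper8.UV
open Pool.Agent.Helper53.TC5

/-- Two different points collide under a random function with probability `1 / K`. -/
theorem collide {α : Type*} [Fintype α] [DecidableEq α] (K : ℕ) (s t : α) (hst : s ≠ t) :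
    (univ.filter (fun h : α → Fin K => h s = h t)).card * K = Fintype.card (α → Fin K) := by
  have h1 : ((univ.filter (fun h : α → Fin K => h s = h t)) ×ˢ (univ : Finset (Fin K))).card =
      (univ : Finset (α → Fin K)).card := by
    refine card_nbij' (fun p => Function.update p.1 s p.2)
      (fun g => (Function.update g s (g t), g s)) ?_ ?_ ?_ ?_
    · intro p _
      exact mem_univ _
    · intro g _
      simp only [coe_product, Set.mem_prod, mem_coe, mem_filter, mem_univ, true_and, and_true]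
      rw [Function.update_self, Function.update_of_ne hst.symm]
    · rintro ⟨h, c⟩ hp
      simp only [coe_product, Set.mem_prod, mem_coe, mem_filter, mem_univ, true_and,
        and_true] at hp
      simp only [Function.update_self, Function.update_of_ne hst.symm, Prod.mk.injEq, and_true]
      rw [← hp, Function.update_idem, Function.update_eq_self]
    · intro g _
      simp only
      rw [Function.update_idem, Function.update_eq_self]
  rw [card_product, card_univ, Fintype.card_fin, card_univ] at h1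
  exact h1

/-- The triples of vertices of the classes `0`, `1`, `2`. -/
def trip (n : ℕ) : Finset (Fin n × Fin n × Fin n) :=
  univ.filter (fun t => (t.1 : ℕ) % 3 = 0 ∧ (t.2.1 : ℕ) % 3 = 1 ∧ (t.2.2 : ℕ) % 3 = 2)

theorem mem_trip {n : ℕ} {t : Fin n × Fin n × Fin n} : t ∈ trip n ↔
    (t.1 : ℕ) % 3 = 0 ∧ (t.2.1 : ℕ) % 3 = 1 ∧ (t.2.2 : ℕ) % 3 = 2 := by
  simp only [trip, mem_filter, mem_univ, true_and]

theorem card_trip (n : ℕ) : 27 * (trip n).card ≤ n ^ 3 := by
  have h1 : (trip n).card ≤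
      ((univ.filter (fun u : Fin n => (u : ℕ) % 3 = 0)) ×ˢ
        ((univ.filter (fun u : Fin n => (u : ℕ) % 3 = 1)) ×ˢ
          (univ.filter (fun u : Fin n => (u : ℕ) % 3 = 2)))).card := by
    refine card_le_card ?_
    intro t ht
    simp only [trip, mem_filter, mem_univ, true_and] at ht
    simp only [mem_product, mem_filter, mem_univ, true_and]
    exact ht
  rw [card_product, card_product] at h1
  have h2 : (univ.filter (fun u : Fin n => (u : ℕ) % 3 = 0)).card +
      ((univ.filter (fun u : Fin n => (u : ℕ) % 3 = 1)).card +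
        (univ.filter (fun u : Fin n => (u : ℕ) % 3 = 2)).card) = n := by
    rw [← card_union_of_disjoint, ← card_union_of_disjoint]
    · have h3 : (univ.filter (fun u : Fin n => (u : ℕ) % 3 = 0)) ∪
          ((univ.filter (fun u : Fin n => (u : ℕ) % 3 = 1)) ∪
            (univ.filter (fun u : Fin n => (u : ℕ) % 3 = 2))) = univ := by
        ext u
        simp only [mem_union, mem_filter, mem_univ, true_and, iff_true]
        omega
      rw [h3, card_univ, Fintype.card_fin]
    · rw [disjoint_left]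
      intro u hu hu'
      simp only [mem_union, mem_filter, mem_univ, true_and] at hu hu'
      omega
    · rw [disjoint_left]
      intro u hu hu'
      simp only [mem_filter, mem_univ, true_and] at hu hu'
      omega
  obtain ⟨x, hx⟩ : ∃ x, x = (univ.filter (fun u : Fin n => (u : ℕ) % 3 = 0)).card := ⟨_, rfl⟩
  obtain ⟨y, hy⟩ : ∃ y, y = (univ.filter (fun u : Fin n => (u : ℕ) % 3 = 1)).card := ⟨_, rfl⟩
  obtain ⟨z, hz⟩ : ∃ z, z = (univ.filter (fun u : Fin n => (u : ℕ) % 3 = 2)).card := ⟨_, rfl⟩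
  rw [← hx, ← hy, ← hz] at h1 h2
  have h4 : 27 * (x * (y * z)) ≤ (x + (y + z)) ^ 3 := by
    have h5 : (27 : ℤ) * (x * (y * z)) ≤ ((x : ℤ) + (y + z)) ^ 3 := by
      have hx0 : (0 : ℤ) ≤ x := by positivity
      have hy0 : (0 : ℤ) ≤ y := by positivity
      have hz0 : (0 : ℤ) ≤ z := by positivity
      nlinarith [mul_nonneg hx0 (sq_nonneg ((y : ℤ) - z)), mul_nonneg hy0 (sq_nonneg ((x : ℤ) - z)),
        mul_nonneg hz0 (sq_nonneg ((x : ℤ) - y)), mul_nonneg hx0 (sq_nonneg ((x : ℤ) - y)),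
        mul_nonneg hx0 (sq_nonneg ((x : ℤ) - z)), mul_nonneg hy0 (sq_nonneg ((y : ℤ) - x)),
        mul_nonneg hy0 (sq_nonneg ((y : ℤ) - z)), mul_nonneg hz0 (sq_nonneg ((z : ℤ) - x)),
        mul_nonneg hz0 (sq_nonneg ((z : ℤ) - y))]
    exact_mod_cast h5
  rw [h2] at h4
  exact (Nat.mul_le_mul_left 27 h1).trans h4

/-- The number of the values in `[-2 n ^ 300, 2 n ^ 300]`, plus one. -/
def big (n : ℕ) : ℕ := 4 * n ^ 300 + 1

/-- The values in `[-2 n ^ 300, 2 n ^ 300]`, numbered. -/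
def idx (n : ℕ) (z : ℤ) : Fin (big n) :=
  ⟨min (z + 2 * (n : ℤ) ^ 300).toNat (4 * n ^ 300), by
    unfold big
    omega⟩

theorem idx_inj {n : ℕ} {z z' : ℤ} (hz : |z| ≤ 2 * (n : ℤ) ^ 300) (hz' : |z'| ≤ 2 * (n : ℤ) ^ 300)
    (h : idx n z = idx n z') : z = z' := by
  have h1 := congrArg Fin.val h
  simp only [idx] at h1
  rw [abs_le] at hz hz'
  have hc : (((n ^ 300 : ℕ)) : ℤ) = (n : ℤ) ^ 300 := by push_cast; rfl
  rw [← hc] at h1 hz hz'
  omega

open Classical in
/-- The voter: it accepts if the digest of `- (w u v + w v z)` is the digest of `w u z` for some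
vertices `u`, `v`, `z` of the classes `0`, `1`, `2`. -/
noncomputable def vote {n : ℕ} (h : Fin (big n) → Fin (n ^ 3)) (I : Inst n) : ℝ :=
  if ∃ t ∈ trip n, h (idx n (-(I.wt t.1 t.2.1 + I.wt t.2.1 t.2.2))) =
    h (idx n (I.wt t.1 t.2.2)) then 1 else -1

theorem vote_congr {n : ℕ} (h : Fin (big n) → Fin (n ^ 3)) (f : Flags n) (w w' : Wts n)
    (h1 : ∀ u v : Fin n, Side 0 1 u v ∨ Side 1 2 u v → w u v = w' u v)
    (h2 : ∀ u v : Fin n, h (idx n (w u v)) = h (idx n (w' u v))) :
    vote h ⟨f, w⟩ = vote h ⟨f, w'⟩ := by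
  have h3 : (∃ t ∈ trip n, h (idx n (-(w t.1 t.2.1 + w t.2.1 t.2.2))) =
      h (idx n (w t.1 t.2.2))) ↔ (∃ t ∈ trip n, h (idx n (-(w' t.1 t.2.1 + w' t.2.1 t.2.2))) =
      h (idx n (w' t.1 t.2.2))) := by
    refine exists_congr (fun t => and_congr_right (fun ht => ?_))
    simp only [trip, mem_filter, mem_univ, true_and] at ht
    rw [h1 t.1 t.2.1 (Or.inl (Or.inl ⟨ht.1, ht.2.1⟩)),
      h1 t.2.1 t.2.2 (Or.inr (Or.inl ⟨ht.2.1, ht.2.2⟩)), h2 t.1 t.2.2]
  simp only [vote, h3]

theorem yes_iff {n : ℕ} (I : Inst n) (hI : I.Valid) (hT : Tripartite I) :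
    I.Yes ↔ ∃ t ∈ trip n, I.wt t.1 t.2.1 + I.wt t.2.1 t.2.2 + I.wt t.1 t.2.2 = 0 := by
  constructor
  · rintro ⟨i, j, k, _, _, _, h1, h2, h3, h4⟩
    rw [hT] at h1 h2 h3
    have hs := hI.2.2.1
    have hi := Nat.mod_lt (i : ℕ) (show 0 < 3 by norm_num)
    have hj := Nat.mod_lt (j : ℕ) (show 0 < 3 by norm_num)
    have hk := Nat.mod_lt (k : ℕ) (show 0 < 3 by norm_num)
    have hcases : ((i : ℕ) % 3 = 0 ∧ (j : ℕ) % 3 = 1 ∧ (k : ℕ) % 3 = 2) ∨
        ((i : ℕ) % 3 = 0 ∧ (j : ℕ) % 3 = 2 ∧ (k : ℕ) % 3 = 1) ∨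
        ((i : ℕ) % 3 = 1 ∧ (j : ℕ) % 3 = 0 ∧ (k : ℕ) % 3 = 2) ∨
        ((i : ℕ) % 3 = 1 ∧ (j : ℕ) % 3 = 2 ∧ (k : ℕ) % 3 = 0) ∨
        ((i : ℕ) % 3 = 2 ∧ (j : ℕ) % 3 = 0 ∧ (k : ℕ) % 3 = 1) ∨
        ((i : ℕ) % 3 = 2 ∧ (j : ℕ) % 3 = 1 ∧ (k : ℕ) % 3 = 0) := by
      omega
    clear hi hj hk h1 h2 h3
    rcases hcases with h | h | h | h | h | h
    · exact ⟨(i, j, k), mem_trip.2 ⟨h.1, h.2.1, h.2.2⟩, h4⟩
    · refine ⟨(i, k, j), mem_trip.2 ⟨h.1, h.2.2, h.2.1⟩, ?_⟩
      change I.wt i k + I.wt k j + I.wt i j = 0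
      rw [hs k j, ← h4]
      ring
    · refine ⟨(j, i, k), mem_trip.2 ⟨h.2.1, h.1, h.2.2⟩, ?_⟩
      change I.wt j i + I.wt i k + I.wt j k = 0
      rw [hs j i, ← h4]
      ring
    · refine ⟨(k, i, j), mem_trip.2 ⟨h.2.2, h.1, h.2.1⟩, ?_⟩
      change I.wt k i + I.wt i j + I.wt k j = 0
      rw [hs k i, hs k j, ← h4]
      ring
    · refine ⟨(j, k, i), mem_trip.2 ⟨h.2.1, h.2.2, h.1⟩, ?_⟩
      change I.wt j k + I.wt k i + I.wt j i = 0
      rw [hs k i, hs j i, ← h4]
      ring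
    · refine ⟨(k, j, i), mem_trip.2 ⟨h.2.2, h.2.1, h.1⟩, ?_⟩
      change I.wt k j + I.wt j i + I.wt k i = 0
      rw [hs k j, hs j i, hs k i, ← h4]
      ring
  · rintro ⟨⟨u, v, z⟩, ht, h⟩
    simp only [trip, mem_filter, mem_univ, true_and] at ht
    simp only at h
    have huv : (u : ℕ) % 3 ≠ (v : ℕ) % 3 := by omega
    have hvz : (v : ℕ) % 3 ≠ (z : ℕ) % 3 := by omega
    have huz : (u : ℕ) % 3 ≠ (z : ℕ) % 3 := by omega
    exact ⟨u, v, z, fun e => huv (by rw [e]), fun e => hvz (by rw [e]), fun e => huz (by rw [e]),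
      (hT u v).2 huv, (hT v z).2 hvz, (hT u z).2 huz, h⟩

open Classical in
/-- **The upper end.** With random digests with `n ^ 3` values one voter, which uses the exact
weights of the sides `01` and `12` and the digests of the third side, decides every valid complete
tripartite instance. -/
theorem upper_digest (n : ℕ) (hn : 1 ≤ n) (I : Inst n) (hI : I.Valid) (hT : Tripartite I) :
    Nonempty (Fin (big n) → Fin (n ^ 3)) ∧
    19 * Fintype.card (Fin (big n) → Fin (n ^ 3)) ≤
      20 * (univ.filter (fun h : Fin (big n) → Fin (n ^ 3) => (0 < vote h I ↔ I.Yes))).card := by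
  have hK : 0 < n ^ 3 := by positivity
  refine ⟨⟨fun _ => ⟨0, hK⟩⟩, ?_⟩
  have hwt := hI.2.2.2
  by_cases hY : I.Yes
  · have h1 : (univ.filter (fun h : Fin (big n) → Fin (n ^ 3) => (0 < vote h I ↔ I.Yes))) =
        univ := by
      refine filter_true_of_mem (fun h _ => ?_)
      refine ⟨fun _ => hY, fun _ => ?_⟩
      obtain ⟨t, ht, h0⟩ := (yes_iff I hI hT).1 hY
      have h2 : ∃ t ∈ trip n, h (idx n (-(I.wt t.1 t.2.1 + I.wt t.2.1 t.2.2))) =
          h (idx n (I.wt t.1 t.2.2)) := by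
        refine ⟨t, ht, ?_⟩
        have h3 : -(I.wt t.1 t.2.1 + I.wt t.2.1 t.2.2) = I.wt t.1 t.2.2 := by linarith
        rw [h3]
      rw [vote, if_pos h2]
      norm_num
    rw [h1, card_univ]
    omega
  · have hne : ∀ t ∈ trip n,
        idx n (-(I.wt t.1 t.2.1 + I.wt t.2.1 t.2.2)) ≠ idx n (I.wt t.1 t.2.2) := by
      intro t ht h
      apply hY
      rw [yes_iff I hI hT]
      refine ⟨t, ht, ?_⟩
      have ha := abs_le.1 (hwt t.1 t.2.1)
      have hb := abs_le.1 (hwt t.2.1 t.2.2)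
      have hc := abs_le.1 (hwt t.1 t.2.2)
      have h1 := idx_inj (by rw [abs_le]; constructor <;> linarith)
        (by rw [abs_le]; constructor <;> linarith) h
      linarith
    have hbad : (univ.filter (fun h : Fin (big n) → Fin (n ^ 3) => ¬ (0 < vote h I ↔ I.Yes))) ⊆
        (trip n).biUnion (fun t => univ.filter (fun h : Fin (big n) → Fin (n ^ 3) =>
          h (idx n (-(I.wt t.1 t.2.1 + I.wt t.2.1 t.2.2))) = h (idx n (I.wt t.1 t.2.2)))) := by
      intro h hh
      rw [mem_filter] at hh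
      have h1 : 0 < vote h I := by
        by_contra h2
        exact hh.2 ⟨fun h3 => absurd h3 h2, fun h3 => absurd h3 hY⟩
      unfold vote at h1
      split_ifs at h1 with h2
      · obtain ⟨t, ht, h3⟩ := h2
        rw [mem_biUnion]
        exact ⟨t, ht, mem_filter.2 ⟨mem_univ _, h3⟩⟩
      · norm_num at h1
    have h1 := (card_le_card hbad).trans card_biUnion_le
    have h2 : (∑ t ∈ trip n, (univ.filter (fun h : Fin (big n) → Fin (n ^ 3) =>
          h (idx n (-(I.wt t.1 t.2.1 + I.wt t.2.1 t.2.2))) = h (idx n (I.wt t.1 t.2.2)))).card) *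
          n ^ 3 = (trip n).card * Fintype.card (Fin (big n) → Fin (n ^ 3)) := by
      rw [sum_mul, sum_congr rfl (fun t ht => collide (n ^ 3) _ _ (hne t ht)), sum_const,
        smul_eq_mul]
    have h3 : 20 * (univ.filter (fun h : Fin (big n) → Fin (n ^ 3) =>
        ¬ (0 < vote h I ↔ I.Yes))).card ≤ Fintype.card (Fin (big n) → Fin (n ^ 3)) := by
      have h4 := card_trip n
      have h5 : (20 * (univ.filter (fun h : Fin (big n) → Fin (n ^ 3) =>
          ¬ (0 < vote h I ↔ I.Yes))).card) * n ^ 3 ≤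
          Fintype.card (Fin (big n) → Fin (n ^ 3)) * n ^ 3 := by
        calc (20 * (univ.filter (fun h : Fin (big n) → Fin (n ^ 3) =>
              ¬ (0 < vote h I ↔ I.Yes))).card) * n ^ 3
            = 20 * ((univ.filter (fun h : Fin (big n) → Fin (n ^ 3) =>
              ¬ (0 < vote h I ↔ I.Yes))).card * n ^ 3) := by ring
          _ ≤ 20 * ((trip n).card * Fintype.card (Fin (big n) → Fin (n ^ 3))) := by
              rw [← h2]
              exact Nat.mul_le_mul_left _ (Nat.mul_le_mul_right _ h1)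
          _ = (20 * (trip n).card) * Fintype.card (Fin (big n) → Fin (n ^ 3)) := by ring
          _ ≤ n ^ 3 * Fintype.card (Fin (big n) → Fin (n ^ 3)) := by
              refine Nat.mul_le_mul_right _ ?_
              omega
          _ = Fintype.card (Fin (big n) → Fin (n ^ 3)) * n ^ 3 := by ring
      exact Nat.le_of_mul_le_mul_right h5 hK
    have h6 := card_filter_add_card_filter_not (s := (univ : Finset (Fin (big n) → Fin (n ^ 3))))
      (fun h => (0 < vote h I ↔ I.Yes))
    rw [card_univ] at h6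
    omega

end Pool.Agent.Helper53.DG
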