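import Pool.Agent.Helper53.DG.Upper
import Pool.Agent.Helper94.DG.Defs

/-!
# Piece C3 (upper_digest): the upper end in the form of the frame
-/

set_option autoImplicit false

open Finset

namespace Pool.Agent.Helper53.DG.F

open Pool.Agent.Helper22.ETModel Pool.Agent.Helper8.VT Pool.Agent.Helper8.UV
open Pool.Agent.Helper53.TC5 Pool.Agent.Helper94.DG

theorem side_zero {n : ℕ} {p q : ℕ} {Q : Finset (Fin n × Fin n)}
    (h : ∀ u v : Fin n, (u : ℕ) % 3 = p → (v : ℕ) % 3 = q → ¬ Has Q u v) : side p q Q = 0 := by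
  classical
  unfold side
  rw [card_eq_zero, filter_eq_empty_iff]
  intro c _ hc
  exact h c.1 c.2 hc.1 hc.2.1 hc.2.2

theorem tri_zero (n a b : ℕ) : tri n a b 0 = 0 := by
  unfold tri
  have h1 : Real.sqrt ((a : ℝ) * b * ((0 : ℕ) : ℝ)) = 0 := by simp
  have ha : (0 : ℝ) ≤ a := by positivity
  have hb : (0 : ℝ) ≤ b := by positivity
  have h2 : min ((a : ℝ) * b) (min ((b : ℝ) * ((0 : ℕ) : ℝ)) ((a : ℝ) * ((0 : ℕ) : ℝ))) = 0 := by
    simp only [Nat.cast_zero, mul_zero, min_self]
    exact min_eq_right (mul_nonneg ha hb)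
  have h3 : (n : ℝ) * min (a : ℝ) (min (b : ℝ) ((0 : ℕ) : ℝ)) = 0 := by
    simp only [Nat.cast_zero]
    rw [min_eq_right hb, min_eq_right ha, mul_zero]
  rw [h1, h2, h3, min_self, min_self]

/-- The cells of the sides `01` and `12`. -/
def twoSides (n : ℕ) : Finset (Fin n × Fin n) :=
  univ.filter (fun c => Side 0 1 c.1 c.2 ∨ Side 1 2 c.1 c.2)

theorem has_twoSides {n : ℕ} (u v : Fin n) :
    Has (twoSides n) u v ↔ Side 0 1 u v ∨ Side 1 2 u v := by
  have key : ∀ u v : Fin n, (u, v) ∈ twoSides n ↔ Side 0 1 u v ∨ Side 1 2 u v := by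
    intro u v
    simp [twoSides]
  unfold Has
  rw [key, key]
  simp only [Side]
  omega

theorem sees_vote {n : ℕ} (f : Flags n) (h : Fin (big n) → Fin (n ^ 3)) :
    Sees f (K := fun _ _ => n ^ 3) (fun _ _ x => h (idx n x)) (twoSides n) (vote h) := by
  intro w w' hw hw' h1 h2
  refine vote_congr h f w w' ?_ ?_
  · intro u v huv
    exact h2 u v (Or.inl ((has_twoSides u v).2 huv))
  · intro u v
    rcases lt_trichotomy ((u : ℕ) % 3) ((v : ℕ) % 3) with huv | huv | huv
    · exact h1 u v huv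
    · rw [h2 u v (Or.inr huv)]
    · have h3 := h1 v u huv
      have e1 : w v u = w u v := hw.2.2.1 v u
      have e2 : w' v u = w' u v := hw'.2.2.1 v u
      rw [← e1, ← e2]
      exact h3

theorem price_vote {n : ℕ} (h : Fin (big n) → Fin (n ^ 3)) :
    PriceG (K := fun _ _ => n ^ 3) (fun _ _ _ x => h (idx n x)) (vote h) 0 := by
  intro f
  refine ⟨twoSides n, sees_vote f h, ?_⟩
  have h0 : side 0 2 (twoSides n) = 0 := by
    refine side_zero ?_
    intro u v hu hv hh
    rw [has_twoSides] at hh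
    simp only [Side] at hh
    omega
  rw [h0, tri_zero]

theorem upper_digest (n : ℕ) : ∃ (Ω : Type) (_ : Fintype Ω) (_ : Nonempty Ω)
    (δ : Ω → ∀ u v : Fin n, ℤ → Fin (n ^ 3)) (H : Ω → Inst n → ℝ),
    (∀ ω, PriceG (K := fun _ _ => n ^ 3) (fun _ => δ ω) (H ω) 0) ∧
    ∀ I : Inst n, I.Valid → Tripartite I → Decides (fun ω (_ : Fin 1) => H ω) I := by
  classical
  rcases Nat.eq_zero_or_pos n with hn | hn
  · subst hn
    refine ⟨Unit, inferInstance, inferInstance, fun _ u => u.elim0, fun _ _ => 0, ?_, ?_⟩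
    · intro _ f
      refine ⟨∅, fun _ _ _ _ _ _ => rfl, ?_⟩
      have h0 : side 0 2 (∅ : Finset (Fin 0 × Fin 0)) = 0 := side_zero (fun u => u.elim0)
      rw [h0, tri_zero]
    · intro I _ _
      have hY : ¬ I.Yes := fun ⟨i, _⟩ => i.elim0
      unfold Decides
      have h1 : (univ.filter fun ω : Unit => (0 < ∑ s : Fin 1, (fun (_ : Unit) (_ : Fin 1)
          (_ : Inst 0) => (0 : ℝ)) ω s I ↔ I.Yes)) = univ := by
        refine filter_true_of_mem (fun ω _ => ?_)
        simp only [sum_const_zero, lt_self_iff_false, false_iff]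
        exact hY
      rw [h1, card_univ]
      simp
  · refine ⟨Fin (big n) → Fin (n ^ 3), inferInstance, ?_, fun h _ _ x => h (idx n x),
      fun h => vote h, fun h => price_vote h, ?_⟩
    · exact ⟨fun _ => ⟨0, by positivity⟩⟩
    · intro I hI hT
      have h1 := (DG.upper_digest n hn I hI hT).2
      unfold Decides
      simp only [Fin.sum_univ_one]
      refine h1.trans (le_of_eq ?_)
      congr 2

end Pool.Agent.Helper53.DG.F
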